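import Mathlib

/-!
# The converse of the stepping-up lemma under GCH

If `κ ↛ (η_k; k < γ)^n` then `κ⁺ ↛ (η_k ∔ 1; k < γ)^(n+1)`, where `∔ 1` is the ordinal successor;
under GCH `κ⁺ = 2^κ`. So the implication asked about holds for all parameters.

Idea: let `c` be a colouring of the `n`-subsets of `κ`, and let `e_t`, for `t < κ⁺`, be an injection
of the ordinal `t` into `κ`. Colour a set of `n + 1` ordinals below `κ⁺` with maximum `t` by
the colour of the image under `e_t` of the other `n` ordinals. A homogeneous set of order type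
`η_k ∔ 1` has a maximum `t`, and the `η_k` points below it are mapped by `e_t` onto a homogeneous
set for `c` of cardinality `η_k`, which has a subset of order type `η_k`.
-/

set_option autoImplicit false

namespace Pool.Agent.Results.MP_2e9b9b_lc.SteppingUpConverse

open Cardinal Ordinal Set

universe u

/-- The partition relation `κ → (η k; k ∈ K)^m`, the colours being the elements of `K` and the
`η k` being ordinals: for every colouring `c` of the `m`-element subsets of `κ` there are a colour
`k` and a set `H` of order type `η k` all of whose `m`-element subsets have colour `k`. -/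
def Arrow (κ : Cardinal.{u}) {K : Type u} (η : K → Ordinal.{u}) (m : ℕ) : Prop :=
  ∀ c : {a : Finset κ.ord.ToType // a.card = m} → K, ∃ (k : K) (H : Set κ.ord.ToType),
    typeLT H = η k ∧
      ∀ a : {a : Finset κ.ord.ToType // a.card = m}, (a.1 : Set κ.ord.ToType) ⊆ H → c a = k

/-- A set of cardinality `η` in a well-order has a subset of order type `η`. -/
theorem exists_subset_type {α : Type u} [LinearOrder α] [WellFoundedLT α] (A : Set α)
    (η : Cardinal.{u}) (hA : #A = η) : ∃ B ⊆ A, typeLT B = η.ord := by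
  have h1 : typeLT η.ord.ToType ≤ typeLT A := by
    rw [type_toType, ← hA]
    exact ord_le_type _
  obtain ⟨f⟩ := type_le_iff.1 h1
  let g : η.ord.ToType → α := fun x => (f x).1
  have hg : StrictMono g := fun x y hxy => f.map_rel_iff.2 hxy
  refine ⟨range g, ?_, ?_⟩
  · rintro _ ⟨x, rfl⟩
    exact (f x).2
  · rw [← (hg.orderIso g).ordinalType_congr, type_toType]

/-- The stepping-up implication with `κ⁺` in place of `2^κ`, in ZFC. -/
theorem main (κ : Cardinal.{u}) (hκ : κ ≠ 0) {K : Type u} [Nonempty K] (η : K → Cardinal.{u}) (n : ℕ)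
    (h : Arrow (Order.succ κ) (fun k => Order.succ (η k).ord) (n + 1)) :
    Arrow κ (fun k => (η k).ord) n := by
  classical
  intro c
  -- injections of the initial segments of `κ⁺`
  have hinj : ∀ t : (Order.succ κ).ord.ToType, ∃ e : (Order.succ κ).ord.ToType → κ.ord.ToType,
      InjOn e (Iio t) := by
    intro t
    have h1 : #(Iio t) < Order.succ κ := by
      have := mk_Iio_lt t (by rw [Cardinal.mk_toType, card_ord, type_toType])
      rwa [Cardinal.mk_toType, card_ord] at this
    have h2 : #(Iio t) ≤ #(κ.ord.ToType) := by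
      rw [Cardinal.mk_toType, card_ord]
      exact Order.lt_succ_iff.1 h1
    obtain ⟨f⟩ := h2
    by_cases hne : Nonempty (Iio t)
    · obtain ⟨x⟩ := hne
      refine ⟨fun y => if hy : y ∈ Iio t then f ⟨y, hy⟩ else f x, ?_⟩
      intro y hy z hz hyz
      simp only [hy, hz, dite_true] at hyz
      exact congrArg Subtype.val (f.injective hyz)
    · have hne2 : Nonempty κ.ord.ToType := by
        rw [← Cardinal.mk_ne_zero_iff, Cardinal.mk_toType, card_ord]
        exact hκ
      obtain ⟨x⟩ := hne2
      exact ⟨fun _ => x, fun y hy => absurd ⟨⟨y, hy⟩⟩ hne⟩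
  choose e he using hinj
  let g : {a : Finset (Order.succ κ).ord.ToType // a.card = n + 1} → K := fun a =>
    have hne : a.1.Nonempty := Finset.card_pos.1 (by rw [a.2]; exact Nat.succ_pos n)
    if hc : ((a.1.erase (a.1.max' hne)).image (e (a.1.max' hne))).card = n then
      c ⟨_, hc⟩ else Classical.arbitrary K
  obtain ⟨k, H, hH, hg⟩ := h g
  -- the maximum of `H`
  have hlt : (η k).ord < typeLT H := by rw [hH]; exact Order.lt_succ _
  let t : H := enum (α := H) (· < ·) ⟨(η k).ord, hlt⟩
  have hcard : #{y : H // y < t} = η k := by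
    have h1 := card_typein (r := ((· < ·) : H → H → Prop)) t
    rw [typein_enum, card_ord] at h1
    exact h1.symm
  let A : Set (Order.succ κ).ord.ToType := {x | x ∈ H ∧ x < t.1}
  have hA : #A = η k := by
    rw [← hcard]
    refine Cardinal.mk_congr ⟨fun x => ⟨⟨x.1, x.2.1⟩, x.2.2⟩, fun y => ⟨y.1.1, y.1.2, y.2⟩,
      fun _ => rfl, fun _ => rfl⟩
  have hinjA : InjOn (e t) A := (he t).mono fun x hx => hx.2
  have hA' : #(e t '' A) = η k := by rw [mk_image_eq_of_injOn _ _ hinjA, hA]
  obtain ⟨B, hB, hBt⟩ := exists_subset_type (e t '' A) (η k) hA'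
  refine ⟨k, B, hBt, ?_⟩
  rintro ⟨b, hb⟩ hbB
  -- pull `b` back
  obtain ⟨a, haA, hab⟩ : ∃ a : Finset (Order.succ κ).ord.ToType, (a : Set _) ⊆ A ∧
      a.image (e t) = b := by
    have h1 : (b : Set κ.ord.ToType) ⊆ e t '' A := fun x hx => hB (hbB hx)
    obtain ⟨a, ha1, ha2⟩ := Finset.subset_set_image_iff.1 h1
    exact ⟨a, ha1, ha2⟩
  have hacard : a.card = n := by
    rw [← hb, ← hab, Finset.card_image_of_injOn (hinjA.mono haA)]
  have hta : t.1 ∉ a := fun hta => lt_irrefl _ (haA hta).2
  have hcard2 : (insert t.1 a).card = n + 1 := by rw [Finset.card_insert_of_notMem hta, hacard]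
  have hsub : ((insert t.1 a : Finset _) : Set (Order.succ κ).ord.ToType) ⊆ H := by
    intro x hx
    rcases Finset.mem_insert.1 (Finset.mem_coe.1 hx) with rfl | hx
    · exact t.2
    · exact (haA hx).1
  have h3 := hg ⟨insert t.1 a, hcard2⟩ hsub
  have hne : (insert t.1 a).Nonempty := Finset.insert_nonempty _ _
  have hmax : (insert t.1 a).max' hne = t.1 := by
    apply le_antisymm
    · apply Finset.max'_le
      intro x hx
      rcases Finset.mem_insert.1 hx with rfl | hx
      · exact le_rfl
      · exact (haA hx).2.le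
    · exact Finset.le_max' _ _ (Finset.mem_insert_self _ _)
  have himg : ((insert t.1 a).erase ((insert t.1 a).max' hne)).image
      (e ((insert t.1 a).max' hne)) = b := by
    rw [hmax, Finset.erase_insert hta, hab]
  have h4 : g ⟨insert t.1 a, hcard2⟩ = c ⟨b, hb⟩ := by
    have hc : (((insert t.1 a).erase ((insert t.1 a).max' hne)).image
      (e ((insert t.1 a).max' hne))).card = n := by rw [himg]; exact hb
    simp only [g]
    rw [dif_pos hc]
    congr 1
    exact Subtype.ext himg
  rw [← h4, h3]

/-- The implication asked about, under GCH. -/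
theorem result (hGCH : ∀ μ : Cardinal.{u}, ℵ₀ ≤ μ → 2 ^ μ = Order.succ μ)
    (κ : Cardinal.{u}) (hκ : ℵ₀ ≤ κ) (n : ℕ) (_hn : 2 ≤ n) (K : Type u) (hK : 2 ≤ #K ∧ #K < κ)
    (η : K → Cardinal.{u}) (_hη : ∀ k, (n : Cardinal.{u}) < η k ∧ η k ≤ κ)
    (h : ¬ Arrow κ (fun k => (η k).ord) n) :
    ¬ Arrow (2 ^ κ) (fun k => Order.succ (η k).ord) (n + 1) := by
  have hne : Nonempty K := by
    rw [← Cardinal.mk_ne_zero_iff]
    intro h0
    rw [h0] at hK
    exact absurd hK.1 (not_le.2 (by norm_num))
  rw [hGCH κ hκ]
  exact fun h' => h (main κ (aleph0_pos.trans_le hκ).ne' η n h')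

end Pool.Agent.Results.MP_2e9b9b_lc.SteppingUpConverse
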